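import Pool.Agent.E8helper50.SR.S

set_option autoImplicit false

universe u v

namespace Pool.Agent.E8helper82.SR

open Pool.Agent.E8helper50.SR

lemma wprod_update {F : Type u} [Field F] {R : Type v} [NonUnitalRing R] [Module F R]
    [IsScalarTower F R R] [SMulCommClass F R R] : ∀ (n : ℕ) (b : Fin (n + 1) → R)
    (k : Fin (n + 1)) (c : F) (x y : R),
    wprod n (Function.update b k (c • x + y)) =
      c • wprod n (Function.update b k x) + wprod n (Function.update b k y)
  | 0, b, k, c, x, y => by
    have hk : k = 0 := Fin.ext (by omega)
    subst hk
    simp [wprod]
  | n + 1, b, k, c, x, y => by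
    have hs : ∀ z : R, wprod (n + 1) (Function.update b k z) =
        wprod n (fun i => Function.update b k z i.castSucc) *
          Function.update b k z (Fin.last (n + 1)) := fun z => rfl
    rw [hs, hs, hs]
    rcases Fin.eq_castSucc_or_eq_last k with ⟨k', rfl⟩ | rfl
    · have h1 : ∀ z : R, (fun i : Fin (n + 1) => Function.update b k'.castSucc z i.castSucc) =
          Function.update (fun i : Fin (n + 1) => b i.castSucc) k' z := by
        intro z
        funext i
        by_cases h : i = k'
        · subst h; simp
        · rw [Function.update_of_ne h, Function.update_of_ne]
          exact fun h' => h (Fin.castSucc_injective _ h')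
      have h2 : ∀ z : R, Function.update b k'.castSucc z (Fin.last (n + 1)) =
          b (Fin.last (n + 1)) := fun z =>
        Function.update_of_ne (Fin.castSucc_lt_last k').ne' _ _
      rw [h1, h1, h1, h2, h2, h2, wprod_update n, add_mul, smul_mul_assoc]
    · have h1 : ∀ z : R, (fun i : Fin (n + 1) => Function.update b (Fin.last (n + 1)) z
          i.castSucc) = fun i : Fin (n + 1) => b i.castSucc := by
        intro z
        funext i
        exact Function.update_of_ne (Fin.castSucc_lt_last i).ne _ _
      rw [h1, h1, h1]
      simp only [Function.update_self]
      rw [mul_add, mul_smul_comm]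

lemma sev_update {F : Type u} [Field F] {R : Type v} [NonUnitalRing R] [Module F R]
    [IsScalarTower F R R] [SMulCommClass F R R] (f : MPoly F) (p : Fin (f.n + 1) → ZMod 2)
    (a : Fin (f.n + 1) → R) (j : Fin (f.n + 1)) (c : F) (x y : R) :
    sev f p (Function.update a j (c • x + y)) =
      c • sev f p (Function.update a j x) + sev f p (Function.update a j y) := by
  unfold sev
  rw [Finset.smul_sum, ← Finset.sum_add_distrib]
  refine Finset.sum_congr rfl fun σ _ => ?_
  have h : ∀ z : R, (fun i => Function.update a j z (σ i)) =
      Function.update (fun i => a (σ i)) (σ.symm j) z := by
    intro z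
    funext i
    by_cases h : i = σ.symm j
    · subst h; simp
    · rw [Function.update_of_ne h, Function.update_of_ne]
      intro h'
      exact h (by rw [← h', Equiv.symm_apply_apply])
  rw [h, h, h, wprod_update, smul_add, smul_comm]

theorem t_SPN : S_SPN.{u} := by
  intro F _ A f B hB hB' hns
  unfold Sat at hns
  push Not at hns
  obtain ⟨p, a, ha, hne⟩ := hns
  have key : ∀ E : Finset (Fin (f.n + 1)), ∃ a' : Fin (f.n + 1) → A,
      (∀ i ∈ E, a' i ∈ B (p i)) ∧ (∀ i, a' i ∈ A.gr (p i)) ∧ sev f p a' ≠ 0 := by
    intro E
    induction E using Finset.induction_on with
    | empty => exact ⟨a, by simp, ha, hne⟩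
    | insert j E hj ih =>
      obtain ⟨a', h1, h2, h3⟩ := ih
      by_contra hcon
      push Not at hcon
      let S : Submodule F A :=
        { carrier := {z | sev f p (Function.update a' j z) = 0}
          add_mem' := by
            intro x y hx hy
            have := sev_update f p a' j (1 : F) x y
            rw [one_smul, one_smul] at this
            change sev f p (Function.update a' j (x + y)) = 0
            rw [this]
            change sev f p (Function.update a' j x) = 0 at hx
            change sev f p (Function.update a' j y) = 0 at hy
            rw [hx, hy, add_zero]
          zero_mem' := by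
            have := sev_update f p a' j (1 : F) (0 : A) 0
            rw [one_smul, one_smul, add_zero] at this
            change sev f p (Function.update a' j 0) = 0
            exact left_eq_add.1 this
          smul_mem' := by
            intro c x hx
            have h0 : sev f p (Function.update a' j (0 : A)) = 0 := by
              have := sev_update f p a' j (1 : F) (0 : A) 0
              rw [one_smul, one_smul, add_zero] at this
              exact left_eq_add.1 this
            have := sev_update f p a' j c x 0
            rw [add_zero, h0, add_zero] at this
            change sev f p (Function.update a' j (c • x)) = 0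
            rw [this]
            change sev f p (Function.update a' j x) = 0 at hx
            rw [hx, smul_zero] }
      have hS : A.gr (p j) ≤ S := by
        refine (hB (p j)).trans (Submodule.span_le.2 ?_)
        intro z hz
        change sev f p (Function.update a' j z) = 0
        refine hcon (Function.update a' j z) ?_ ?_
        · intro i hi
          by_cases h : i = j
          · subst h; rw [Function.update_self]; exact hz
          · rw [Function.update_of_ne h]
            exact h1 i ((Finset.mem_insert.1 hi).resolve_left h)
        · intro i
          by_cases h : i = j
          · subst h; rw [Function.update_self]; exact hB' _ hz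
          · rw [Function.update_of_ne h]; exact h2 i
      have h4 : sev f p (Function.update a' j (a' j)) = 0 := hS (h2 j)
      rw [Function.update_eq_self] at h4
      exact h3 h4
  obtain ⟨a', h1, _, h3⟩ := key Finset.univ
  exact ⟨p, a', fun i => h1 i (Finset.mem_univ i), h3⟩

end Pool.Agent.E8helper82.SR
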