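import Pool.Agent.E8helper50.SR.S4

/-!
# Project SR, piece QSP: the quotient by the largest nilpotent graded ideal (helper82)
-/

set_option autoImplicit false

universe u

namespace Pool.Agent.E8helper50.SR

namespace QSP82

section

variable {F : Type u} [Field F] (A : SAlg F)

/-- two-sided graded nilpotent ideals -/
structure GNI (N : Submodule F A) : Prop where
  left : ∀ a, ∀ z ∈ N, a * z ∈ N
  right : ∀ a, ∀ z ∈ N, z * a ∈ N
  graded : N ≤ (N ⊓ A.gr 0) ⊔ (N ⊓ A.gr 1)
  nil : ∃ m : ℕ, ∀ z : Fin (m + 1) → A, (∀ i, z i ∈ N) → wprod m z = 0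

/-- homogeneous elements -/
def Hom (x : A) : Prop := ∃ i, x ∈ A.gr i

variable {A}

theorem Hom.mul {x y : A} (hx : Hom A x) (hy : Hom A y) : Hom A (x * y) := by
  obtain ⟨i, hi⟩ := hx
  obtain ⟨j, hj⟩ := hy
  exact ⟨i + j, A.mul_mem i j x y hi hj⟩

theorem decomp (x : A) : ∃ a ∈ A.gr 0, ∃ b ∈ A.gr 1, x = a + b := by
  have h : x ∈ A.gr 0 ⊔ A.gr 1 := by
    rw [A.compl.sup_eq_top]; trivial
  obtain ⟨a, ha, b, hb, h⟩ := Submodule.mem_sup.1 h
  exact ⟨a, ha, b, hb, h.symm⟩

theorem zmod2 (i : ZMod 2) : i = 0 ∨ i = 1 := by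
  revert i; decide

theorem gni_bot : GNI A ⊥ where
  left := by
    intro a z hz
    rw [Submodule.mem_bot] at hz ⊢
    rw [hz, mul_zero]
  right := by
    intro a z hz
    rw [Submodule.mem_bot] at hz ⊢
    rw [hz, zero_mul]
  graded := bot_le
  nil := ⟨0, fun z hz => (Submodule.mem_bot F).1 (hz 0)⟩

theorem pairs {P N : Submodule F A} (h : ∀ x ∈ P, ∀ y ∈ P, x * y ∈ N) :
    ∀ (k : ℕ) (z : Fin (2 * k + 1 + 1) → A), (∀ i, z i ∈ P) →
      ∃ y : Fin (k + 1) → A, (∀ i, y i ∈ N) ∧ wprod (2 * k + 1) z = wprod k y := by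
  intro k
  induction k with
  | zero =>
    intro z hz
    exact ⟨fun _ => z 0 * z 1, fun _ => h _ (hz 0) _ (hz 1), rfl⟩
  | succ k ih =>
    intro z hz
    obtain ⟨y, hy, e⟩ := ih (fun i => z i.castSucc.castSucc) (fun i => hz _)
    refine ⟨Fin.snoc (α := fun _ => (A : Type u)) y
      (z (Fin.last (2 * k + 1 + 1)).castSucc * z (Fin.last (2 * k + 1 + 1 + 1))), ?_, ?_⟩
    · intro i
      refine Fin.lastCases ?_ (fun j => ?_) i
      · rw [Fin.snoc_last]
        exact h _ (hz _) _ (hz _)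
      · rw [Fin.snoc_castSucc]
        exact hy j
    · have e1 : wprod (2 * (k + 1) + 1) z =
          wprod (2 * k + 1) (fun i => z i.castSucc.castSucc) *
            z (Fin.last (2 * k + 1 + 1)).castSucc * z (Fin.last (2 * k + 1 + 1 + 1)) := rfl
      rw [e1, e, mul_assoc]
      change _ = wprod k (fun i => Fin.snoc (α := fun _ => (A : Type u)) y _ i.castSucc) *
        Fin.snoc (α := fun _ => (A : Type u)) y _ (Fin.last (k + 1))
      rw [Fin.snoc_last]
      simp only [Fin.snoc_castSucc]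

/-- `N` is maximal among the graded nilpotent ideals -/
def Mx (N : Submodule F A) : Prop := GNI A N ∧ ∀ P : Submodule F A, GNI A P → N ≤ P → P ≤ N

theorem absorb {N : Submodule F A} (hN : Mx N) (S : Set A) (hh : ∀ s ∈ S, Hom A s)
    (ha : ∀ s ∈ S, ∀ a, Hom A a → a * s ∈ N ⊔ Submodule.span F S ∧
      s * a ∈ N ⊔ Submodule.span F S)
    (hb : ∀ s ∈ S, ∀ t ∈ S, s * t ∈ N) : S ⊆ N := by
  set P : Submodule F A := N ⊔ Submodule.span F S with hP
  have hNP : N ≤ P := le_sup_left
  have hSP : Submodule.span F S ≤ P := le_sup_right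
  have hl : ∀ a, Hom A a → ∀ z ∈ Submodule.span F S, a * z ∈ P ∧ z * a ∈ P := by
    intro a hha z hz
    induction hz using Submodule.span_induction with
    | mem s hs => exact ha s hs a hha
    | zero => rw [mul_zero, zero_mul]; exact ⟨P.zero_mem, P.zero_mem⟩
    | add x y _ _ hx hy =>
      rw [mul_add, add_mul]; exact ⟨P.add_mem hx.1 hy.1, P.add_mem hx.2 hy.2⟩
    | smul c x _ hx =>
      rw [mul_smul_comm, smul_mul_assoc]; exact ⟨P.smul_mem _ hx.1, P.smul_mem _ hx.2⟩
  have hlP : ∀ a, ∀ z ∈ P, a * z ∈ P ∧ z * a ∈ P := by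
    intro a z hz
    obtain ⟨n, hn, s, hs, rfl⟩ := Submodule.mem_sup.1 hz
    obtain ⟨a0, h0, a1, h1, rfl⟩ := decomp a
    have e0 := hl a0 ⟨0, h0⟩ s hs
    have e1 := hl a1 ⟨1, h1⟩ s hs
    constructor
    · rw [mul_add, add_mul a0 a1 s]
      exact P.add_mem (hNP (hN.1.left _ _ hn)) (P.add_mem e0.1 e1.1)
    · rw [add_mul, mul_add s a0 a1]
      exact P.add_mem (hNP (hN.1.right _ _ hn)) (P.add_mem e0.2 e1.2)
  have hss : ∀ x ∈ Submodule.span F S, ∀ y ∈ Submodule.span F S, x * y ∈ N := by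
    intro x hx y hy
    induction hx using Submodule.span_induction with
    | mem s hs =>
      induction hy using Submodule.span_induction with
      | mem t ht => exact hb s hs t ht
      | zero => rw [mul_zero]; exact N.zero_mem
      | add x y _ _ hx hy => rw [mul_add]; exact N.add_mem hx hy
      | smul c x _ hx => rw [mul_smul_comm]; exact N.smul_mem _ hx
    | zero => rw [zero_mul]; exact N.zero_mem
    | add x y _ _ hx hy => rw [add_mul]; exact N.add_mem hx hy
    | smul c x _ hx => rw [smul_mul_assoc]; exact N.smul_mem _ hx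
  have hpp : ∀ x ∈ P, ∀ y ∈ P, x * y ∈ N := by
    intro x hx y hy
    obtain ⟨n, hn, s, hs, rfl⟩ := Submodule.mem_sup.1 hx
    obtain ⟨n', hn', s', hs', rfl⟩ := Submodule.mem_sup.1 hy
    rw [add_mul, mul_add s n' s']
    exact N.add_mem (hN.1.right _ _ hn) (N.add_mem (hN.1.left _ _ hn') (hss _ hs _ hs'))
  have hG : GNI A P := by
    refine ⟨fun a z hz => (hlP a z hz).1, fun a z hz => (hlP a z hz).2, ?_, ?_⟩
    · refine sup_le ?_ ?_
      · exact hN.1.graded.trans (sup_le_sup (inf_le_inf_right _ hNP) (inf_le_inf_right _ hNP))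
      · rw [Submodule.span_le]
        intro s hs
        obtain ⟨i, hi⟩ := hh s hs
        have hsP : s ∈ P := hSP (Submodule.subset_span hs)
        rcases zmod2 i with h | h
        · rw [h] at hi
          exact Submodule.mem_sup_left ⟨hsP, hi⟩
        · rw [h] at hi
          exact Submodule.mem_sup_right ⟨hsP, hi⟩
    · obtain ⟨m, hm⟩ := hN.1.nil
      refine ⟨2 * m + 1, fun z hz => ?_⟩
      obtain ⟨y, hy, e⟩ := pairs hpp m z hz
      rw [e]
      exact hm y hy
  intro s hs
  exact hN.2 P hG hNP (hSP (Submodule.subset_span hs))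

theorem key {N : Submodule F A} (hN : Mx N) (z : A) (hz : Hom A z)
    (h : ∀ w, Hom A w → z * w * z ∈ N) : z ∈ N := by
  have s1 : ∀ a b, Hom A a → Hom A b → a * z * b ∈ N := by
    have := absorb hN {x | ∃ a b, Hom A a ∧ Hom A b ∧ x = a * z * b} ?_ ?_ ?_
    · intro a b ha hb
      exact this ⟨a, b, ha, hb, rfl⟩
    · rintro s ⟨a, b, ha, hb, rfl⟩
      exact (ha.mul hz).mul hb
    · rintro s ⟨a, b, ha, hb, rfl⟩ c hc
      constructor
      · refine Submodule.mem_sup_right (Submodule.subset_span ⟨c * a, b, hc.mul ha, hb, ?_⟩)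
        simp only [mul_assoc]
      · refine Submodule.mem_sup_right (Submodule.subset_span ⟨a, b * c, ha, hb.mul hc, ?_⟩)
        simp only [mul_assoc]
    · rintro s ⟨a, b, ha, hb, rfl⟩ t ⟨c, d, hc, hd, rfl⟩
      have e : a * z * b * (c * z * d) = a * (z * (b * c) * z) * d := by
        simp only [mul_assoc]
      rw [e]
      exact hN.1.right _ _ (hN.1.left _ _ (h _ (hb.mul hc)))
  have s2 : ∀ a, Hom A a → a * z ∈ N := by
    have := absorb hN {x | ∃ a, Hom A a ∧ x = a * z} ?_ ?_ ?_
    · intro a ha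
      exact this ⟨a, ha, rfl⟩
    · rintro s ⟨a, ha, rfl⟩
      exact ha.mul hz
    · rintro s ⟨a, ha, rfl⟩ c hc
      constructor
      · refine Submodule.mem_sup_right (Submodule.subset_span ⟨c * a, hc.mul ha, ?_⟩)
        simp only [mul_assoc]
      · exact Submodule.mem_sup_left (s1 a c ha hc)
    · rintro s ⟨a, ha, rfl⟩ t ⟨c, hc, rfl⟩
      have e : a * z * (c * z) = a * (z * c * z) := by simp only [mul_assoc]
      rw [e]
      exact hN.1.left _ _ (h _ hc)
  have s3 : ∀ a, Hom A a → z * a ∈ N := by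
    have := absorb hN {x | ∃ a, Hom A a ∧ x = z * a} ?_ ?_ ?_
    · intro a ha
      exact this ⟨a, ha, rfl⟩
    · rintro s ⟨a, ha, rfl⟩
      exact hz.mul ha
    · rintro s ⟨a, ha, rfl⟩ c hc
      constructor
      · refine Submodule.mem_sup_left ?_
        rw [← mul_assoc]
        exact s1 c a hc ha
      · refine Submodule.mem_sup_right (Submodule.subset_span ⟨a * c, ha.mul hc, ?_⟩)
        simp only [mul_assoc]
    · rintro s ⟨a, ha, rfl⟩ t ⟨c, hc, rfl⟩
      have e : z * a * (z * c) = z * a * z * c := by simp only [mul_assoc]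
      rw [e]
      exact hN.1.right _ _ (h _ ha)
  have := absorb hN {z} ?_ ?_ ?_
  · exact this rfl
  · rintro s rfl
    exact hz
  · rintro s rfl c hc
    exact ⟨Submodule.mem_sup_left (s2 c hc), Submodule.mem_sup_left (s3 c hc)⟩
  · rintro s rfl t rfl
    exact s2 _ hz

theorem exists_mx [Module.Finite F A] : ∃ N : Submodule F A, Mx N := by
  have hne : ({N : Submodule F A | GNI A N}).Nonempty := ⟨⊥, gni_bot⟩
  obtain ⟨N, hN, hmax⟩ := (set_has_maximal_iff_noetherian (R := F) (M := A)).2 inferInstance _ hne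
  refine ⟨N, hN, fun P hP hNP => ?_⟩
  by_contra hc
  exact hmax P hP (lt_of_le_not_ge hNP hc)

end

section

variable {F : Type u} [Field F] {A : SAlg F} (N : Submodule F A)

/-- the carrier of the quotient -/
def Q : Type u := A ⧸ N

noncomputable instance : AddCommGroup (Q N) := inferInstanceAs (AddCommGroup (A ⧸ N))

noncomputable instance : Module F (Q N) := inferInstanceAs (Module F (A ⧸ N))

instance [Module.Finite F A] : Module.Finite F (Q N) := inferInstanceAs (Module.Finite F (A ⧸ N))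

/-- the quotient map -/
noncomputable def qmk : A →ₗ[F] Q N := N.mkQ

theorem qmk_surjective : Function.Surjective (qmk N) := Submodule.mkQ_surjective _

theorem qmk_eq_zero {a : A} : qmk N a = 0 ↔ a ∈ N := Submodule.Quotient.mk_eq_zero _

theorem qmk_eq {a b : A} : qmk N a = qmk N b ↔ a - b ∈ N := Submodule.Quotient.eq _

/-- multiplication by representatives -/
noncomputable def qmul : Q N → Q N → Q N := fun a b =>
  qmk N ((qmk_surjective N a).choose * (qmk_surjective N b).choose)

variable (hN : GNI A N)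

include hN in
theorem qmul_mk (a b : A) : qmul N (qmk N a) (qmk N b) = qmk N (a * b) := by
  unfold qmul
  rw [qmk_eq]
  have ha := (qmk_surjective N (qmk N a)).choose_spec
  have hb := (qmk_surjective N (qmk N b)).choose_spec
  set a' := (qmk_surjective N (qmk N a)).choose
  set b' := (qmk_surjective N (qmk N b)).choose
  rw [qmk_eq] at ha hb
  have e : a' * b' - a * b = (a' - a) * b' + a * (b' - b) := by
    rw [sub_mul, mul_sub]; abel
  rw [e]
  exact Submodule.add_mem _ (hN.right _ _ ha) (hN.left _ _ hb)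

noncomputable instance instMulQ : Mul (Q N) := ⟨qmul N⟩

include hN in
theorem qmk_mul (a b : A) : qmk N (a * b) = qmk N a * qmk N b :=
  (qmul_mk N hN a b).symm

/-- the ring structure of the quotient -/
@[reducible]
noncomputable def qring : NonUnitalRing (Q N) :=
  { (inferInstance : AddCommGroup (Q N)), (inferInstance : Mul (Q N)) with
    left_distrib := by
      intro a b c
      obtain ⟨a, rfl⟩ := qmk_surjective N a
      obtain ⟨b, rfl⟩ := qmk_surjective N b
      obtain ⟨c, rfl⟩ := qmk_surjective N c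
      rw [← map_add, ← qmk_mul N hN, ← qmk_mul N hN, ← qmk_mul N hN, ← map_add, mul_add]
    right_distrib := by
      intro a b c
      obtain ⟨a, rfl⟩ := qmk_surjective N a
      obtain ⟨b, rfl⟩ := qmk_surjective N b
      obtain ⟨c, rfl⟩ := qmk_surjective N c
      rw [← map_add, ← qmk_mul N hN, ← qmk_mul N hN, ← qmk_mul N hN, ← map_add, add_mul]
    zero_mul := by
      intro a
      obtain ⟨a, rfl⟩ := qmk_surjective N a
      rw [← map_zero (qmk N), ← qmk_mul N hN, zero_mul]
    mul_zero := by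
      intro a
      obtain ⟨a, rfl⟩ := qmk_surjective N a
      rw [← map_zero (qmk N), ← qmk_mul N hN, mul_zero]
    mul_assoc := by
      intro a b c
      obtain ⟨a, rfl⟩ := qmk_surjective N a
      obtain ⟨b, rfl⟩ := qmk_surjective N b
      obtain ⟨c, rfl⟩ := qmk_surjective N c
      rw [← qmk_mul N hN, ← qmk_mul N hN, ← qmk_mul N hN, ← qmk_mul N hN, mul_assoc] }

/-- the quotient superalgebra -/
noncomputable def qS : SAlg F where
  carrier := Q N
  ring := qring N hN
  mod := inferInstance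
  tow := ⟨by
    intro c a b
    obtain ⟨a, rfl⟩ := qmk_surjective N a
    obtain ⟨b, rfl⟩ := qmk_surjective N b
    rw [smul_eq_mul, smul_eq_mul, ← map_smul, ← qmk_mul N hN, ← qmk_mul N hN, smul_mul_assoc,
      map_smul]⟩
  com := ⟨by
    intro c a b
    obtain ⟨a, rfl⟩ := qmk_surjective N a
    obtain ⟨b, rfl⟩ := qmk_surjective N b
    rw [smul_eq_mul, smul_eq_mul, ← map_smul, ← qmk_mul N hN, ← qmk_mul N hN, mul_smul_comm,
      map_smul]⟩
  gr := fun p => (A.gr p).map (qmk N)
  compl := by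
    constructor
    · rw [Submodule.disjoint_def]
      rintro z ⟨a, ha, rfl⟩ ⟨b, hb, hab⟩
      rw [qmk_eq] at hab
      rw [qmk_eq_zero]
      obtain ⟨n0, h0, n1, h1, h⟩ := Submodule.mem_sup.1 (hN.graded hab)
      have h2 : b - n1 = a + n0 := by
        rw [eq_comm, sub_eq_iff_eq_add] at h
        rw [h]; abel
      have h3 : b - n1 ∈ A.gr 1 := Submodule.sub_mem _ hb h1.2
      have h4 : a + n0 ∈ A.gr 0 := Submodule.add_mem _ ha h0.2
      rw [h2] at h3
      have h5 := (Submodule.disjoint_def.1 A.compl.disjoint) _ h4 h3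
      have h6 : a = - n0 := eq_neg_of_add_eq_zero_left h5
      rw [h6]
      exact Submodule.neg_mem _ h0.1
    · rw [codisjoint_iff, ← Submodule.map_sup, A.compl.sup_eq_top, Submodule.map_top,
        LinearMap.range_eq_top]
      exact qmk_surjective N
  mul_mem := by
    rintro i j _ _ ⟨a, ha, rfl⟩ ⟨b, hb, rfl⟩
    exact ⟨a * b, A.mul_mem i j a b ha hb, qmk_mul N hN a b⟩

/-- the quotient map, to the superalgebra -/
noncomputable def qpi : A →ₗ[F] (qS N hN) := qmk N

theorem qpi_mul (a b : A) : qpi N hN (a * b) = qpi N hN a * qpi N hN b := qmk_mul N hN a b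

theorem qpi_eq_zero {a : A} : qpi N hN a = 0 ↔ a ∈ N := qmk_eq_zero N

theorem qpi_surjective : Function.Surjective (qpi N hN) := qmk_surjective N

theorem mem_gr (p : ZMod 2) (z : qS N hN) :
    z ∈ (qS N hN).gr p ↔ ∃ a ∈ A.gr p, qpi N hN a = z := Iff.rfl

end

end QSP82

open QSP82 in
theorem t_QSP : S_QSP.{u} := by
  intro F _ A _
  obtain ⟨N, hN⟩ := exists_mx (A := A)
  obtain ⟨m, hm⟩ := hN.1.nil
  refine ⟨qS N hN.1, qpi N hN.1, m, ?_, ?_, qpi_surjective N hN.1, qpi_mul N hN.1, ?_, ?_⟩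
  · exact (inferInstance : Module.Finite F (Q N))
  · intro i z hz hne
    obtain ⟨a, ha, rfl⟩ := (mem_gr N hN.1 i z).1 hz
    by_contra hc
    push Not at hc
    refine hne ((qpi_eq_zero N hN.1).2 (key hN a ⟨i, ha⟩ ?_))
    rintro w ⟨j, hw⟩
    have := hc j (qpi N hN.1 w) ((mem_gr N hN.1 j _).2 ⟨w, hw, rfl⟩)
    rw [← qpi_mul, ← qpi_mul, qpi_eq_zero] at this
    exact this
  · intro i x hx
    exact (mem_gr N hN.1 i _).2 ⟨x, hx, rfl⟩
  · intro z hz
    exact hm z fun i => (qpi_eq_zero N hN.1).1 (hz i)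

end Pool.Agent.E8helper50.SR
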